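import Pool.Agent.N166.MU.Stm
import Pool.Agent.Run7.h16.OT.CT

/-!
# The conjectures of Murre for products with constant abelian varieties and Frobenius eigenvalues outside of
the fields: statements
-/

set_option autoImplicit false

open CategoryTheory AlgebraicGeometry

universe u v w

namespace Run7.h16.MO

open Polynomial Pool.Agent.H914 Pool.Agent.H914.VarClass Pool.Agent.H914.VarClass.Obj
  Pool.Agent.W492.BB Pool.Agent.W484.CK Pool.Agent.N166.MU Run7.h16.OT

/-- `πA` is the Frobenius endomorphism of an abelian variety `A` over the field with `q ^ s`
elements, isogenous to a product of powers of abelian varieties coming from the field with `q`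
elements with characteristic polynomials `f i`; `Y` is any variety over the field with `q ^ s`
elements, such that the eigenvalues of its Frobenius endomorphism `πY` on the cohomology and their
conjugates satisfy `Outside K`, and such that homologically trivial self-correspondences of `A × Y`
of degree zero are nilpotent. -/
structure IsOutsideSituation {k : Type u} [Field k] {𝒱 : VarClass k} {C : TheoryData.{u, v, 0} 𝒱 ℚ}
    {F : Type w} [Field F] [CharZero F] (H : WeilTheoryData.{u, v, w} C F) {A Y : 𝒱.Obj}
    {I : Type} (K : I → Type) [∀ i, Field (K i)] (q s : ℕ) (f : I → ℤ[X]) (πA : A ⟶ A)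
    (πY : Y ⟶ Y) : Prop where
  standard : IsStandard H
  pos : 0 < s
  abelian : IsAbelian H πA q s f
  outside : AreOutside H K πY
  nilpotence : Nilpotence H (A.prod Y)

/-- `MurreOutside K q f`: the following holds for the Chow groups `C` with rational coefficients of
all classes `𝒱` of varieties over fields `k` (finite, in the intended use), every Weil cohomology
theory `H` with coefficients in an algebraically closed field `F` of characteristic zero, every `s`
and all varieties `A` and `Y` with Frobenius endomorphisms `πA` and `πY` as in
`IsOutsideSituation`.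

Let `k'` be a field (in the intended use the function field of a variety `S` over `k`), `C'` the
Chow groups with rational coefficients of a class of varieties over `k'`, `H'` any Weil cohomology
theory, and let `A'` and `Z` be varieties over `k'`, the generic fibres of `A × S` and of a morphism
from `Y` to `S`. Then `MurreForProduct` holds for `A'` and `Z`. -/
def MurreOutside {I : Type} (K : I → Type) [∀ i, Field (K i)] (q : ℕ) (f : I → ℤ[X]) : Prop :=
  ∀ (k : Type) [Field k] (𝒱 : VarClass k) (C : TheoryData.{0, 0, 0} 𝒱 ℚ) [IsChow C]
    (F : Type) [Field F] [IsAlgClosed F] [CharZero F] (H : WeilTheoryData.{0, 0, 0} C F) [IsWeil H]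
    (s : ℕ) (A Y : 𝒱.Obj) (πA : A ⟶ A) (πY : Y ⟶ Y), IsNormalized C →
    IsOutsideSituation H K q s f πA πY → IsFrobenius C (prodMap πA πY) (q ^ s) →
  ∀ (k' : Type) [Field k'] (𝒱' : VarClass k') (C' : TheoryData.{0, 0, 0} 𝒱' ℚ) [IsChow C']
    (F' : Type) [Field F'] (H' : WeilTheoryData.{0, 0, 0} C' F') [IsWeil H'] (A' Z : 𝒱'.Obj)
    (α : C.A A → C'.A A') (β : C.A Y → C'.A Z) (γ : C.A (A.prod Y) → C'.A (A'.prod Z)),
    IsNormalized C' → IsStandard H' → IsTopOriented H' → IsGenericFibre C C' α β γ →
    MurreForProduct H' A' Z

end Run7.h16.MO
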