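import Pool.Agent.N166.MU.Main
import Pool.Agent.Y1.CT.Kun
import Pool.Agent.Run7.h16.MO.Stm

/-!
# The conjectures of Murre for products with constant abelian varieties and Frobenius eigenvalues outside of
the fields
-/

set_option autoImplicit false
set_option linter.unusedSectionVars false

open CategoryTheory AlgebraicGeometry Polynomial

universe u v w

namespace Run7.h16.MO

open Pool.Agent.H914 Pool.Agent.H914.VarClass Pool.Agent.H914.VarClass.Obj Pool.Agent.W492.BB
  Pool.Agent.W550.Corr Pool.Agent.W484.CK Pool.Agent.N166.MU Pool.Agent.Y1.CT Run7.h16.OT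

theorem murreOutside {I : Type} {K : I → Type} [∀ i, Field (K i)] {q : ℕ} (hq : 1 < q)
    {f : I → ℤ[X]} (hR : NoRel f q (Outside K)) : MurreOutside K q f := by
  intro k _ 𝒱 C _ F _ _ _ H _ s A Y πA πY hN hsit hF k' _ 𝒱' C' _ F' _ H' _ A' Z α β γ hN' hS' hT'
    hfib
  have hC1 : Pool.Agent.TH133.IsChowProj C := isChowProj_of hN hsit.standard
  have hC2 : Pool.Agent.TH133.IsChowProj C' := isChowProj_of hN' hS'
  have hH2 : Pool.Agent.TH133.IsWeilProj H' := isWeilProj_of hS' hT'
  obtain ⟨J, hJ, deg, D, E', hdual, hD, hK⟩ := Pool.Agent.Y1.CT.kunneth_main hq hR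
    (isStandard_bridge hsit.standard) hsit.pos (isAbelian_bridge hsit.abelian)
    (πZ := πY) hsit.outside (nilpotence_bridge hsit.nilpotence)
  have h1 : Pool.Agent.W484.CH.HasKunneth (Pool.Agent.W484.CH.chowData C) A Y deg D := Pool.Agent.W484.CH.hasKunneth_of hdual
    Pool.Agent.W484.CH.chowData_isCorrTheory (hK (Pool.Agent.W484.CH.chowData C) Pool.Agent.W484.CH.chowData_isCorrTheory
      (Pool.Agent.W484.CH.chowData_actsAsPower (isFrobenius_bridge hF)))
  have hG : Gen C A Y deg D E' := gen_of_dual hsit.standard hdual (fun i y hy => by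
    obtain ⟨z, ⟨hz1, hz2⟩, -⟩ := h1 i y hy
    refine ⟨z, hz1, hz2.trans ?_⟩
    exact Finset.sum_congr rfl fun j _ => Pool.Agent.W484.CH.act_extBy C (D j) (z j))
  exact murreForProduct_of_gen H' (gen_fibre hfib hG)
    (fun j => divisorProduct_fibre hfib (hD j))

open NumberField in
theorem conj_eq {E : Type} [Field E] [NumberField E] [IsCMField E] {x : E} {p w : ℕ}
    (h : ∀ φ : E →+* ℂ, ‖φ x‖ ^ 2 = (p : ℝ) ^ w) :
    x * IsCMField.complexConj E x = (p : E) ^ w := by
  obtain ⟨φ⟩ : Nonempty (E →+* ℂ) := inferInstance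
  apply φ.injective
  rw [map_mul, IsCMField.complexEmbedding_complexConj, map_pow, map_natCast, Complex.mul_conj,
    Complex.normSq_eq_norm_sq, h φ]
  push_cast
  rfl

end Run7.h16.MO
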